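import Pool.Agent.Helper64.DT.Stmts

/-! Module D2S (MP_866009_co): two nonadjacent vertices, no conflicts in the cluster. -/

set_option autoImplicit false

namespace Pool.Agent.Helper64.DT

open Pool.Agent.Helper64.CT

theorem d2s_lam {V : Type} {G : SimpleGraph V} {a c y z : V} (h0 : Alpha G a c y)
    (h : Lam G a c y z) : Alpha G a c z := by
  induction h with
  | refl => exact h0
  | tail _ h _ => exact h.1

/-- the component is a single vertex -/
theorem d2s_core (hSNG : ST_SNG) {V : Type} {G : SimpleGraph V} (hcon : G.Preconnected)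
    (hpr : Prime G) {a c y z : V} (h0 : Alpha G a c y) (hz : Lam G a c y z) (S : Set V)
    (hS : Att G c z = S) (hsub : ∀ w, Lam G a c y w → Att G c w ⊆ S)
    (hmix : ∀ u, Comp G c z u → ¬ Mixed G u S) : (∀ u, Comp G c z u → u = z) ∧ y = z := by
  have hzA := d2s_lam h0 hz
  have hsing : ∀ u, Comp G c z u → u = z :=
    hSNG V G hcon hpr c z hzA.1 (fun u hu => by rw [hS]; exact hmix u hu)
  refine ⟨hsing, ?_⟩
  have key : ∀ w, Lam G a c y w → w = z → y = z := by
    intro w hw
    induction hw with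
    | refl => exact fun h => h
    | @tail w w' hw hstep ih =>
      intro hw'
      rw [hw'] at hstep
      apply ih
      rcases hstep.2 with h | h
      · exact hsing w h.symm
      · exfalso
        obtain ⟨-, -, u, hu, -, n, hn, hna⟩ := h
        have hu' := hsing u hu
        rw [hu'] at hna
        have hn2 : n ∈ Att G c z := by
          rw [hS]
          exact hsub w hw hn
        obtain ⟨-, u2, hu2, hadj⟩ := hn2
        rw [hsing u2 hu2] at hadj
        exact hna hadj.symm
  exact key z hz rfl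

/-- a vertex of the component with a neighbour in `S` is complete to `S`, so `S` is the set of
attachments -/
theorem d2s_eq {V : Type} {G : SimpleGraph V} {c z : V} (S : Set V)
    (hSN : ∀ n ∈ S, G.Adj c n) (hsub : Att G c z ⊆ S)
    (hmix : ∀ u, Comp G c z u → ¬ Mixed G u S) (hne : (Att G c z).Nonempty) :
    Att G c z = S := by
  apply Set.Subset.antisymm hsub
  intro n hn
  obtain ⟨n0, hn0⟩ := hne
  have hn0' := hn0
  obtain ⟨-, u0, hu0, hadj⟩ := hn0'
  refine ⟨hSN n hn, u0, hu0, ?_⟩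
  by_contra hc
  exact hmix u0 hu0 ⟨⟨n0, hsub hn0, hadj.symm⟩, n, hn, fun h => hc h.symm⟩

theorem st_D2S (hALS : Pool.Agent.Helper64.CT.ST_ALS) (hBET : Pool.Agent.Helper64.CT.ST_BET)
    (hATT : Pool.Agent.Helper64.CT.ST_ATT) (hBLW : ST_BLW) (hAT2 : ST_AT2) (hSNG : ST_SNG) :
    ST_D2S := by
  classical
  intro V G hcon hpr hDF a c y hac h0 H1 H2
  have hca : c ∈ Far G a := Far.symm hac
  have hacne : a ≠ c := hac.1
  have hnadj : ¬ G.Adj a c := fun h => hac.2 h.symm
  by_cases hi : ∃ z, Lam G a c y z ∧ ∃ c', Comp G a c c' ∧ Mixed G c' (Att G c z)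
  · -- first alternative
    obtain ⟨z, hz, c', hc', hm⟩ := hi
    have hzA := d2s_lam h0 hz
    obtain ⟨hzA', hcomp, hatt⟩ := hALS V G a c z hac hzA
    have hmix : ∀ u, Comp G c z u → ¬ Mixed G u (Att G a c) := by
      intro u hu hmu
      apply H2 z hz
      refine ⟨fun h => hzA'.2.1 h.symm, ⟨u, (hcomp u).2 hu, hmu⟩, c', hc', ?_⟩
      rw [hatt]
      exact hm
    have hsub : ∀ w, Lam G a c y w → Att G c w ⊆ Att G a c := by
      intro w hw n hn
      have hwA := d2s_lam h0 hw
      exact ⟨hwA.2.2 n hn, c, Comp.refl hca, hn.1.symm⟩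
    have hSeq : Att G c z = Att G a c := by
      apply Set.Subset.antisymm (hsub z hz)
      intro n hn
      obtain ⟨⟨n0, hn0, hadj0⟩, -⟩ := hm
      have hn0' := hn0
      obtain ⟨-, u0, hu0, hadj⟩ := hn0'
      have hcompl : G.Adj u0 n := by
        by_contra hcn
        exact hmix u0 hu0 ⟨⟨n0, hsub z hz hn0, hadj.symm⟩, n, hn, hcn⟩
      rw [← hatt]
      exact ⟨hn.1, u0, (hcomp u0).2 hu0, hcompl.symm⟩
    obtain ⟨hsing, hyz⟩ := d2s_core hSNG hcon hpr h0 hz (Att G a c) hSeq hsub hmix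
    rw [← hyz] at hsing hSeq hm
    exact ⟨hsing, Or.inl ⟨hSeq.symm, c', hc', hm⟩⟩
  by_cases hii : ∃ z, Lam G a c y z ∧ ∃ a', Comp G c a a' ∧ Mixed G a' (Att G c z)
  · -- second alternative
    obtain ⟨z, hz, a', ha', hm⟩ := hii
    have hzA := d2s_lam h0 hz
    have hmix : ∀ u, Comp G c z u → ¬ Mixed G u (Att G c a) := by
      intro u hu hmu
      exact H1 z hz ⟨fun h => hzA.2.1 h.symm, ⟨u, hu, hmu⟩, a', ha', hm⟩
    have hsub : ∀ w, Lam G a c y w → Att G c w ⊆ Att G c a := by
      intro w hw n hn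
      have hwA := d2s_lam h0 hw
      exact ⟨hn.1, a, Comp.refl hac, (hwA.2.2 n hn).symm⟩
    have hSeq : Att G c z = Att G c a := by
      obtain ⟨⟨n0, hn0, -⟩, -⟩ := hm
      exact d2s_eq (Att G c a) (fun n hn => hn.1) (hsub z hz) hmix ⟨n0, hn0⟩
    obtain ⟨hsing, hyz⟩ := d2s_core hSNG hcon hpr h0 hz (Att G c a) hSeq hsub hmix
    rw [← hyz] at hsing hSeq hm
    exact ⟨hsing, Or.inr ⟨hSeq.symm, a', ha', hm⟩⟩
  -- otherwise
  exfalso
  have N1 : ∀ z, Lam G a c y z → ∀ c', Comp G a c c' → ¬ Mixed G c' (Att G c z) :=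
    fun z hz c' hc' hm => hi ⟨z, hz, c', hc', hm⟩
  have N2 : ∀ z, Lam G a c y z → ∀ a', Comp G c a a' → ¬ Mixed G a' (Att G c z) :=
    fun z hz a' ha' hm => hii ⟨z, hz, a', ha', hm⟩
  have hclu : ∀ w, Clu G c y w → Lam G a c y w := by
    intro w hw
    induction hw with
    | refl => exact Relation.ReflTransGen.refl
    | @tail z w hzc hstep hz =>
      have hzA := d2s_lam h0 hz
      refine Relation.ReflTransGen.tail hz ⟨?_, hstep⟩
      rcases hstep with h | h
      · refine ⟨h.right, fun h' => hzA.2.1 (h'.trans h.symm), ?_⟩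
        rw [← Att.congr h]
        exact hzA.2.2
      · have hwf : w ∈ Far G c := h.far.2
        have hnc : ¬ Comp G c a w := fun h' =>
          H1 z hz (h.congr (Comp.refl h.far.1) h'.symm)
        by_contra hnA
        have hb := hBET V G a c w hac hwf hnc hnA
        obtain ⟨-, -, u, hu, hm⟩ := h
        exact N1 z hz u (hb u hu) hm
  have hncl : ¬ Clu G c y a := by
    intro h
    exact (d2s_lam h0 (hclu a h)).2.1 (Comp.refl hac)
  have hle : Le G c y a := by
    constructor
    · obtain ⟨n, hn⟩ := hATT V G hcon c y h0.1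
      exact ⟨n, hn, hn.1, a, Comp.refl hac, (h0.2.2 n hn).symm⟩
    · intro u hu
      exact N2 y Relation.ReflTransGen.refl u hu
  obtain ⟨z, p, q, hz, hp, hcq, hpq, -⟩ := hBLW V G hcon hpr c y a h0.1 hac hle hncl
  have hzL := hclu z hz
  have hzA := d2s_lam h0 hzL
  have hap : G.Adj a p := hzA.2.2 p hp
  have hcp : G.Adj c p := hp.1
  have hqa : ¬ G.Adj a q := by
    intro h
    exact hnadj (hDF p q a c hpq hap.symm h.symm hcp.symm hcq.symm hacne)
  have hqf : q ∈ Far G a := by
    refine ⟨?_, hqa⟩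
    intro e
    rw [e] at hcq
    exact hac.2 hcq
  have hcompq : Comp G a c q := Comp.adj hca hqf hcq
  obtain ⟨n, hn, hnp⟩ := hAT2 V G hpr c z a p hzA.1 hac (fun h => hzA.2.1 h.symm) hp
  have han : G.Adj a n := hzA.2.2 n hn
  have hcn : G.Adj c n := hn.1
  refine N1 z hzL q hcompq ⟨⟨p, hp, hpq.symm⟩, n, hn, ?_⟩
  intro hqn
  rcases DF.tr hDF hcp hcq hcn hpq hqn with h | h
  · exact hnp h.symm
  · exact hnadj (hDF p n a c h hap.symm han.symm hcp.symm hcn.symm hacne)

end Pool.Agent.Helper64.DT
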